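import Mathlib

/-!
# Torsion-free indecomposable injective FI-modules are degree-wise finite

Let `I` be such a module.  Two nonzero submodules of `I` meet (`meet`).  For an element `y` of
degree `n` let `nu y` be the alternating sum, over the subsets `T` of `[n]`, of the images of `y`
under the injections `[n] → [n] ⊔ [n]` which move `T` to the second copy.  Since `I` is injective,
the kernel of `nu` is contained in the sum of the images of the degree `n - 1` part under the
injections `[n - 1] → [n]` (`ker_nu_le`); so it is finite-dimensional by induction on `n`.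
For left ideals `J' < J` of the group algebra of the symmetric group which are adjacent and
`c0` in `J` but not in `J'`, uniformity of `I` shows that all `nu (c0 y)`, for `y` killed by
`J'`, lie in the span of the images, in degree `2 n`, of a single element (`key`).  By descending
induction on `J'` the space of elements of degree `n` killed by `J'` is finite-dimensional
(`ann_fg`), and `J' = 0` gives the theorem.
-/

set_option autoImplicit false

open CategoryTheory

universe u

namespace Pool.Agent.Results.MP_b23a2c_al.DegreewiseFinite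

/-- The category of the finite sets `{1, …, n}`, `n ≥ 0`, and injective maps. -/
structure FI where
  card : ℕ

instance : SmallCategory FI where
  Hom a b := Fin a.card ↪ Fin b.card
  id a := Function.Embedding.refl _
  comp f g := f.trans g

variable {k : Type u} [Field k] (I : FI ⥤ ModuleCat.{u} k)

/-- The action of an injection. -/
def act {a b : ℕ} (h : Fin a ↪ Fin b) : I.obj ⟨a⟩ →ₗ[k] I.obj ⟨b⟩ :=
  (I.map (show (⟨a⟩ : FI) ⟶ ⟨b⟩ from h)).hom

lemma act_refl {a : ℕ} (y : I.obj ⟨a⟩) : act I (Function.Embedding.refl (Fin a)) y = y := by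
  have h := I.map_id (⟨a⟩ : FI)
  exact congrArg (fun f => f.hom y) h

lemma act_trans {a b c : ℕ} (f : Fin a ↪ Fin b) (g : Fin b ↪ Fin c) (y : I.obj ⟨a⟩) :
    act I (f.trans g) y = act I g (act I f y) := by
  have h := I.map_comp (show (⟨a⟩ : FI) ⟶ ⟨b⟩ from f) (show (⟨b⟩ : FI) ⟶ ⟨c⟩ from g)
  exact congrArg (fun f => f.hom y) h


/-- The action of a linear combination of injections. -/
noncomputable def xact {a b : ℕ} :
    ((Fin a ↪ Fin b) →₀ k) →ₗ[k] (I.obj ⟨a⟩ →ₗ[k] I.obj ⟨b⟩) :=
  Finsupp.linearCombination k (fun h => act I h)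

lemma xact_single {a b : ℕ} (h : Fin a ↪ Fin b) (r : k) (y : I.obj ⟨a⟩) :
    xact I (Finsupp.single h r) y = r • act I h y := by
  simp [xact]

lemma xact_sum {a b : ℕ} (x : (Fin a ↪ Fin b) →₀ k) (y : I.obj ⟨a⟩) :
    xact I x y = ∑ h, x h • act I h y := by
  rw [xact, Finsupp.linearCombination_apply,
    Finsupp.sum_fintype x (fun h r => r • act I h) (fun h => zero_smul k _), LinearMap.sum_apply]
  rfl

/-- Postcomposition with an injection. -/
noncomputable def post {a b c : ℕ} (f : Fin b ↪ Fin c) :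
    ((Fin a ↪ Fin b) →₀ k) →ₗ[k] ((Fin a ↪ Fin c) →₀ k) :=
  Finsupp.lmapDomain k k (fun h => h.trans f)

lemma post_single {a b c : ℕ} (f : Fin b ↪ Fin c) (h : Fin a ↪ Fin b) (r : k) :
    post f (Finsupp.single h r) = Finsupp.single (h.trans f) r := by
  simp [post]

lemma xact_post {a b c : ℕ} (f : Fin b ↪ Fin c) (x : (Fin a ↪ Fin b) →₀ k) (y : I.obj ⟨a⟩) :
    xact I (post f x) y = act I f (xact I x y) := by
  induction x using Finsupp.induction_linear with
  | zero => simp
  | add x x' hx hx' => simp only [map_add, LinearMap.add_apply, hx, hx']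
  | single h r => rw [post_single, xact_single, xact_single, act_trans, map_smul]

/-- The operator of an element of the group algebra of the symmetric group. -/
noncomputable def opr {n : ℕ} :
    (Equiv.Perm (Fin n) →₀ k) →ₗ[k] (I.obj ⟨n⟩ →ₗ[k] I.obj ⟨n⟩) :=
  Finsupp.linearCombination k (fun σ => act I σ.toEmbedding)

lemma opr_single {n : ℕ} (σ : Equiv.Perm (Fin n)) (r : k) (y : I.obj ⟨n⟩) :
    opr I (Finsupp.single σ r) y = r • act I σ.toEmbedding y := by
  simp [opr]

lemma opr_sum {n : ℕ} (c : Equiv.Perm (Fin n) →₀ k) (y : I.obj ⟨n⟩) :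
    opr I c y = ∑ σ, c σ • act I σ.toEmbedding y := by
  rw [opr, Finsupp.linearCombination_apply,
    Finsupp.sum_fintype c (fun σ r => r • act I σ.toEmbedding) (fun h => zero_smul k _),
    LinearMap.sum_apply]
  rfl

/-- Left translation in the group algebra. -/
noncomputable def ltr {n : ℕ} (σ : Equiv.Perm (Fin n)) :
    (Equiv.Perm (Fin n) →₀ k) →ₗ[k] (Equiv.Perm (Fin n) →₀ k) :=
  Finsupp.lmapDomain k k (fun τ => σ * τ)

lemma ltr_single {n : ℕ} (σ τ : Equiv.Perm (Fin n)) (r : k) :
    ltr σ (Finsupp.single τ r) = Finsupp.single (σ * τ) r := by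
  simp [ltr]

lemma opr_ltr {n : ℕ} (σ : Equiv.Perm (Fin n)) (c : Equiv.Perm (Fin n) →₀ k)
    (y : I.obj ⟨n⟩) : opr I (ltr σ c) y = act I σ.toEmbedding (opr I c y) := by
  induction c using Finsupp.induction_linear with
  | zero => simp
  | add x x' hx hx' => simp only [map_add, LinearMap.add_apply, hx, hx']
  | single τ r =>
    rw [ltr_single, opr_single, opr_single, map_smul, ← act_trans]
    rfl

/-- The product of an injection with an element of the group algebra. -/
noncomputable def hc {n m : ℕ} (h : Fin n ↪ Fin m) :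
    (Equiv.Perm (Fin n) →₀ k) →ₗ[k] ((Fin n ↪ Fin m) →₀ k) :=
  Finsupp.lmapDomain k k (fun σ => σ.toEmbedding.trans h)

lemma hc_single {n m : ℕ} (h : Fin n ↪ Fin m) (σ : Equiv.Perm (Fin n)) (r : k) :
    hc h (Finsupp.single σ r) = Finsupp.single (σ.toEmbedding.trans h) r := by
  simp [hc]

lemma xact_hc {n m : ℕ} (h : Fin n ↪ Fin m) (c : Equiv.Perm (Fin n) →₀ k)
    (y : I.obj ⟨n⟩) : xact I (hc h c) y = act I h (opr I c y) := by
  induction c using Finsupp.induction_linear with
  | zero => simp
  | add x x' hx hx' => simp only [map_add, LinearMap.add_apply, hx, hx']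
  | single τ r => rw [hc_single, opr_single, xact_single, act_trans, map_smul]

lemma post_hc {n m l : ℕ} (f : Fin m ↪ Fin l) (h : Fin n ↪ Fin m)
    (c : Equiv.Perm (Fin n) →₀ k) : post f (hc h c) = hc (h.trans f) c := by
  induction c using Finsupp.induction_linear with
  | zero => simp
  | add x x' hx hx' => simp only [map_add, hx, hx']
  | single τ r => rw [hc_single, hc_single, post_single]; rfl

lemma trans_perm_injective {n m : ℕ} (a : Fin n ↪ Fin m) :
    Function.Injective (fun σ : Equiv.Perm (Fin n) => σ.toEmbedding.trans a) := by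
  intro σ τ h
  ext i
  have h1 := DFunLike.congr_fun h i
  have h2 : a (σ i) = a (τ i) := h1
  rw [a.injective h2]

/-- The coefficient vector at an injection. -/
noncomputable def coef {n m : ℕ} (a : Fin n ↪ Fin m) :
    ((Fin n ↪ Fin m) →₀ k) →ₗ[k] (Equiv.Perm (Fin n) →₀ k) :=
  Finsupp.lcomapDomain (fun σ : Equiv.Perm (Fin n) => σ.toEmbedding.trans a)
    (trans_perm_injective a)

lemma coef_apply {n m : ℕ} (a : Fin n ↪ Fin m) (x : (Fin n ↪ Fin m) →₀ k)
    (σ : Equiv.Perm (Fin n)) : coef a x σ = x (σ.toEmbedding.trans a) := rfl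

/-- If the range of `a` is contained in that of `h` then `h` is `a` up to a permutation. -/
lemma exists_perm {n m : ℕ} (a h : Fin n ↪ Fin m) (hr : ∀ i, ∃ j, h j = a i) :
    ∃ σ : Equiv.Perm (Fin n), h = σ.toEmbedding.trans a := by
  choose ρ hρ using hr
  have hinj : Function.Injective ρ := by
    intro i j hij
    apply a.injective
    rw [← hρ i, ← hρ j, hij]
  let ρe : Equiv.Perm (Fin n) := Equiv.ofBijective ρ (Finite.injective_iff_bijective.mp hinj)
  refine ⟨ρe.symm, ?_⟩
  ext1 i
  have h1 : ρ (ρe.symm i) = i := ρe.apply_symm_apply i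
  calc h i = h (ρ (ρe.symm i)) := by rw [h1]
    _ = a (ρe.symm i) := hρ _
    _ = _ := rfl

/-- Sums over all injections which are supported on one orbit. -/
lemma sum_orbit {n m : ℕ} {N : Type u} [AddCommMonoid N] (a : Fin n ↪ Fin m)
    (Φ : (Fin n ↪ Fin m) → N)
    (h0 : ∀ h : Fin n ↪ Fin m, (∃ i, ∀ j, h j ≠ a i) → Φ h = 0) :
    ∑ h, Φ h = ∑ σ : Equiv.Perm (Fin n), Φ (σ.toEmbedding.trans a) := by
  symm
  apply Finset.sum_of_injOn (fun σ : Equiv.Perm (Fin n) => σ.toEmbedding.trans a)
    (trans_perm_injective a).injOn (fun _ _ => Finset.mem_coe.mpr (Finset.mem_univ _))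
  · intro h _ hh
    apply h0
    by_contra hcon
    push Not at hcon
    obtain ⟨σ, hσ⟩ := exists_perm a h hcon
    exact hh ⟨σ, Finset.mem_coe.mpr (Finset.mem_univ _), hσ.symm⟩
  · intro σ _
    rfl

/-- Vanishing of sums over unions of orbits. -/
lemma sum_orbits_zero {n m : ℕ} {N : Type u} [AddCommMonoid N] (S : (Fin n ↪ Fin m) → Prop)
    [DecidablePred S] (hS : ∀ (h : Fin n ↪ Fin m) (σ : Equiv.Perm (Fin n)), S h →
      S (σ.toEmbedding.trans h))
    (Φ : (Fin n ↪ Fin m) → N)
    (h0 : ∀ a, S a → ∑ σ : Equiv.Perm (Fin n), Φ (σ.toEmbedding.trans a) = 0) :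
    ∑ h ∈ Finset.univ.filter S, Φ h = 0 := by
  classical
  rw [← Finset.sum_fiberwise (Finset.univ.filter S) (fun h => Finset.univ.map h) Φ]
  apply Finset.sum_eq_zero
  intro A _
  by_cases hA : ∃ a ∈ Finset.univ.filter S, Finset.univ.map a = A
  · obtain ⟨a, ha, haA⟩ := hA
    have haS : S a := (Finset.mem_filter.mp ha).2
    rw [← h0 a haS]
    symm
    apply Finset.sum_of_injOn (fun σ : Equiv.Perm (Fin n) => σ.toEmbedding.trans a)
      (trans_perm_injective a).injOn
    · intro σ _
      rw [Finset.mem_coe, Finset.mem_filter, Finset.mem_filter]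
      refine ⟨⟨Finset.mem_univ _, hS a σ haS⟩, ?_⟩
      rw [← haA]
      ext x
      simp only [Finset.mem_map, Finset.mem_univ, true_and]
      constructor
      · rintro ⟨i, hi⟩
        exact ⟨σ i, hi⟩
      · rintro ⟨i, hi⟩
        refine ⟨σ.symm i, ?_⟩
        change a (σ (σ.symm i)) = x
        rw [σ.apply_symm_apply, hi]
    · intro h hh hh'
      exfalso
      rw [Finset.mem_filter, Finset.mem_filter] at hh
      have hr : ∀ i, ∃ j, h j = a i := by
        intro i
        have h1 : a i ∈ Finset.univ.map h := by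
          rw [hh.2, ← haA]
          exact Finset.mem_map_of_mem a (Finset.mem_univ i)
        obtain ⟨j, _, hj⟩ := Finset.mem_map.mp h1
        exact ⟨j, hj⟩
      obtain ⟨σ, hσ⟩ := exists_perm a h hr
      exact hh' ⟨σ, Finset.mem_coe.mpr (Finset.mem_univ _), hσ.symm⟩
    · intro σ _
      rfl
  · apply Finset.sum_eq_zero
    intro h hh
    exfalso
    rw [Finset.mem_filter] at hh
    exact hA ⟨h, hh.1, hh.2⟩

/-! ### Special injections -/

/-- The injection `[n] → [n + n]` which moves the elements of `T` to the second copy. -/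
def hT {n : ℕ} (T : Finset (Fin n)) : Fin n ↪ Fin (n + n) where
  toFun i := if i ∈ T then Fin.natAdd n i else Fin.castAdd n i
  inj' := by
    intro i j hij
    by_cases hi : i ∈ T <;> by_cases hj : j ∈ T <;> simp only [hi, hj, if_true, if_false] at hij
    · ext
      have := congrArg Fin.val hij
      simpa using this
    · exfalso
      have := congrArg Fin.val hij
      simp at this
      omega
    · exfalso
      have := congrArg Fin.val hij
      simp at this
      omega
    · ext
      have := congrArg Fin.val hij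
      simpa using this

lemma hT_mem {n : ℕ} {T : Finset (Fin n)} {i : Fin n} (h : i ∈ T) :
    hT T i = Fin.natAdd n i := if_pos h
lemma hT_notMem {n : ℕ} {T : Finset (Fin n)} {i : Fin n} (h : i ∉ T) :
    hT T i = Fin.castAdd n i := if_neg h

/-- The pair of an injection `[n] → [m]` and the inclusion of a fresh copy of `[n]`. -/
def pair {n m : ℕ} (a : Fin n ↪ Fin m) : Fin (n + n) ↪ Fin (m + n) where
  toFun := Fin.addCases (fun i => Fin.castAdd n (a i)) (fun i => Fin.natAdd m i)
  inj' := by
    intro x y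
    refine Fin.addCases (fun i => ?_) (fun i => ?_) x <;>
      refine Fin.addCases (fun j => ?_) (fun j => ?_) y <;> intro h <;>
      simp only [Fin.addCases_left, Fin.addCases_right] at h
    · have h1 : a i = a j := by
        ext
        simpa using congrArg Fin.val h
      rw [a.injective h1]
    · exfalso
      have := congrArg Fin.val h
      simp at this
      omega
    · exfalso
      have := congrArg Fin.val h
      simp at this
      omega
    · have h1 : i = j := by
        ext
        simpa using congrArg Fin.val h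
      rw [h1]

lemma pair_castAdd {n m : ℕ} (a : Fin n ↪ Fin m) (i : Fin n) :
    pair a (Fin.castAdd n i) = Fin.castAdd n (a i) := by
  change Fin.addCases (motive := fun _ => Fin (m + n)) (fun i => Fin.castAdd n (a i))
    (fun i => Fin.natAdd m i) (Fin.castAdd n i) = _
  rw [Fin.addCases_left]
lemma pair_natAdd {n m : ℕ} (a : Fin n ↪ Fin m) (i : Fin n) :
    pair a (Fin.natAdd n i) = Fin.natAdd m i := by
  change Fin.addCases (motive := fun _ => Fin (m + n)) (fun i => Fin.castAdd n (a i))
    (fun i => Fin.natAdd m i) (Fin.natAdd n i) = _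
  rw [Fin.addCases_right]

open Classical in
/-- The injection `[m] → [m + n]` which replaces `a i` by the `i`-th fresh element for
`i ∈ T`. -/
noncomputable def betaT {n m : ℕ} (a : Fin n ↪ Fin m) (T : Finset (Fin n)) :
    Fin m ↪ Fin (m + n) where
  toFun x := if h : ∃ i ∈ T, a i = x then Fin.natAdd m h.choose else Fin.castAdd n x
  inj' := by
    intro x y hxy
    by_cases hx : ∃ i ∈ T, a i = x <;> by_cases hy : ∃ i ∈ T, a i = y
    · simp only [hx, hy, dif_pos] at hxy
      have h1 : hx.choose = hy.choose := by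
        ext
        simpa using congrArg Fin.val hxy
      rw [← hx.choose_spec.2, ← hy.choose_spec.2, h1]
    · exfalso
      simp only [dif_pos hx, dif_neg hy] at hxy
      have := congrArg Fin.val hxy
      simp at this
      omega
    · exfalso
      simp only [dif_neg hx, dif_pos hy] at hxy
      have := congrArg Fin.val hxy
      simp at this
      omega
    · simp only [dif_neg hx, dif_neg hy] at hxy
      ext
      simpa using congrArg Fin.val hxy

lemma betaT_mem {n m : ℕ} (a : Fin n ↪ Fin m) {T : Finset (Fin n)} {i : Fin n} (hi : i ∈ T) :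
    betaT a T (a i) = Fin.natAdd m i := by
  have h : ∃ j ∈ T, a j = a i := ⟨i, hi, rfl⟩
  change (if h : ∃ j ∈ T, a j = a i then Fin.natAdd m h.choose else Fin.castAdd n (a i)) = _
  rw [dif_pos h]
  congr 1
  exact a.injective h.choose_spec.2

lemma betaT_notMem {n m : ℕ} (a : Fin n ↪ Fin m) {T : Finset (Fin n)} {x : Fin m}
    (hx : ∀ i ∈ T, a i ≠ x) : betaT a T x = Fin.castAdd n x := by
  have h : ¬ ∃ j ∈ T, a j = x := by
    rintro ⟨j, hj, hjx⟩
    exact hx j hj hjx
  change (if h : ∃ j ∈ T, a j = x then Fin.natAdd m h.choose else Fin.castAdd n x) = _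
  rw [dif_neg h]

lemma trans_betaT {n m : ℕ} (a : Fin n ↪ Fin m) (T : Finset (Fin n)) :
    a.trans (betaT a T) = (hT T).trans (pair a) := by
  ext1 i
  change betaT a T (a i) = pair a (hT T i)
  by_cases hi : i ∈ T
  · rw [betaT_mem a hi, hT_mem hi, pair_natAdd]
  · rw [hT_notMem hi, pair_castAdd, betaT_notMem]
    intro j hj hji
    rw [a.injective hji] at hj
    exact hi hj

/-- The permutation of `[n + n]` which acts as `σ` on both copies. -/
def sig2 {n : ℕ} (σ : Equiv.Perm (Fin n)) : Equiv.Perm (Fin (n + n)) :=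
  (finSumFinEquiv.symm.trans (Equiv.sumCongr σ σ)).trans finSumFinEquiv

lemma sig2_castAdd {n : ℕ} (σ : Equiv.Perm (Fin n)) (i : Fin n) :
    sig2 σ (Fin.castAdd n i) = Fin.castAdd n (σ i) := by
  simp [sig2]
lemma sig2_natAdd {n : ℕ} (σ : Equiv.Perm (Fin n)) (i : Fin n) :
    sig2 σ (Fin.natAdd n i) = Fin.natAdd n (σ i) := by
  change finSumFinEquiv (Sum.map σ σ (finSumFinEquiv.symm (Fin.natAdd n i))) = _
  rw [finSumFinEquiv_symm_apply_natAdd, Sum.map_inr, finSumFinEquiv_apply_right]

lemma hT_perm {n : ℕ} (σ : Equiv.Perm (Fin n)) (T : Finset (Fin n)) (i : Fin n) :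
    hT T (σ i) = sig2 σ (hT (T.map σ.symm.toEmbedding) i) := by
  by_cases hi : σ i ∈ T
  · have h1 : i ∈ T.map σ.symm.toEmbedding := by
      rw [Finset.mem_map]
      exact ⟨σ i, hi, σ.symm_apply_apply i⟩
    rw [hT_mem hi, hT_mem h1, sig2_natAdd]
  · have h1 : i ∉ T.map σ.symm.toEmbedding := by
      rw [Finset.mem_map]
      rintro ⟨j, hj, hji⟩
      apply hi
      have : σ i = j := by
        rw [← hji]; exact σ.apply_symm_apply j
      rw [this]; exact hj
    rw [hT_notMem hi, hT_notMem h1, sig2_castAdd]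

/-- The operator `ν`. -/
noncomputable def nu (n : ℕ) : I.obj ⟨n⟩ →ₗ[k] I.obj ⟨n + n⟩ :=
  ∑ T : Finset (Fin n), ((-1 : k) ^ T.card) • act I (hT T)

lemma nu_apply {n : ℕ} (y : I.obj ⟨n⟩) :
    nu I n y = ∑ T : Finset (Fin n), ((-1 : k) ^ T.card) • act I (hT T) y := by
  simp [nu]

lemma nu_act {n : ℕ} (σ : Equiv.Perm (Fin n)) (y : I.obj ⟨n⟩) :
    nu I n (act I σ.toEmbedding y) = act I (sig2 σ).toEmbedding (nu I n y) := by
  classical
  rw [nu_apply, nu_apply, map_sum]
  apply Finset.sum_nbij' (fun T => T.map σ.symm.toEmbedding) (fun T => T.map σ.toEmbedding)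
  · intro T _; exact Finset.mem_univ _
  · intro T _; exact Finset.mem_univ _
  · intro T _
    ext i
    simp
  · intro T _
    ext i
    simp
  · intro T _
    rw [Finset.card_map, map_smul, ← act_trans, ← act_trans]
    have hemb : σ.toEmbedding.trans (hT T) =
        (hT (T.map σ.symm.toEmbedding)).trans (sig2 σ).toEmbedding := by
      ext1 i
      exact hT_perm σ T i
    rw [hemb]

/-- Cancellation. -/
lemma sum_betaT_eq_zero {n m : ℕ} (a h : Fin n ↪ Fin m) (y : I.obj ⟨n⟩)
    (hi : ∃ i, ∀ j, h j ≠ a i) :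
    ∑ T : Finset (Fin n), ((-1 : k) ^ T.card) • act I (h.trans (betaT a T)) y = 0 := by
  classical
  obtain ⟨i, hi⟩ := hi
  have key : ∀ T : Finset (Fin n), i ∉ T →
      h.trans (betaT a (insert i T)) = h.trans (betaT a T) := by
    intro T hT
    ext1 j
    change betaT a (insert i T) (h j) = betaT a T (h j)
    by_cases hj : ∃ l ∈ T, a l = h j
    · obtain ⟨l, hl, hlj⟩ := hj
      rw [← hlj, betaT_mem a hl, betaT_mem a (Finset.mem_insert_of_mem hl)]
    · push Not at hj
      rw [betaT_notMem a hj, betaT_notMem a]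
      intro l hl
      rcases Finset.mem_insert.mp hl with rfl | hl
      · exact (hi j).symm
      · exact hj l hl
  have h1 : (Finset.univ : Finset (Finset (Fin n))) =
      (insert i (Finset.univ.erase i)).powerset := by
    rw [Finset.insert_erase (Finset.mem_univ i), Finset.powerset_univ]
  rw [h1, Finset.sum_powerset_insert (Finset.notMem_erase i _), ← Finset.sum_add_distrib]
  apply Finset.sum_eq_zero
  intro T hT
  have hiT : i ∉ T := fun h => Finset.notMem_erase i _ (Finset.mem_powerset.mp hT h)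
  rw [Finset.card_insert_of_notMem hiT, key T hiT, pow_succ, mul_neg, mul_one, neg_smul,
    add_neg_cancel]

/-- The basic identity. -/
lemma sum_betaT_xact {n m : ℕ} (a : Fin n ↪ Fin m) (x : (Fin n ↪ Fin m) →₀ k)
    (y : I.obj ⟨n⟩) :
    ∑ T : Finset (Fin n), ((-1 : k) ^ T.card) • act I (betaT a T) (xact I x y) =
      act I (pair a) (nu I n (opr I (coef a x) y)) := by
  have h1 : ∀ T : Finset (Fin n), ((-1 : k) ^ T.card) • act I (betaT a T) (xact I x y) =
      ∑ h, x h • (((-1 : k) ^ T.card) • act I (h.trans (betaT a T)) y) := by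
    intro T
    rw [xact_sum, map_sum, Finset.smul_sum]
    apply Finset.sum_congr rfl
    intro h _
    rw [map_smul, act_trans, smul_comm]
  rw [Finset.sum_congr rfl (fun T _ => h1 T), Finset.sum_comm]
  simp_rw [← Finset.smul_sum]
  rw [sum_orbit a (fun h => x h • ∑ T : Finset (Fin n),
    ((-1 : k) ^ T.card) • act I (h.trans (betaT a T)) y)
    (fun h hh => by rw [sum_betaT_eq_zero I a h y hh, smul_zero])]
  rw [opr_sum, map_sum, map_sum]
  apply Finset.sum_congr rfl
  intro σ _
  rw [map_smul, map_smul, coef_apply, nu_apply, map_sum]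
  congr 1
  apply Finset.sum_congr rfl
  intro T _
  rw [map_smul]
  congr 1
  rw [← act_trans, ← act_trans, ← trans_betaT]
  rfl


/-! ### Left ideals of the group algebra -/

/-- Stability under left translations. -/
def IsLeft {n : ℕ} (J : Submodule k (Equiv.Perm (Fin n) →₀ k)) : Prop :=
  ∀ σ : Equiv.Perm (Fin n), ∀ c ∈ J, ltr σ c ∈ J

/-- The span of the products of injections with elements of `J`. -/
noncomputable def InJ {n : ℕ} (J : Submodule k (Equiv.Perm (Fin n) →₀ k)) (m : ℕ) :
    Submodule k ((Fin n ↪ Fin m) →₀ k) :=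
  Submodule.span k {x | ∃ (h : Fin n ↪ Fin m) (c : Equiv.Perm (Fin n) →₀ k), c ∈ J ∧ x = hc h c}

lemma hc_mem {n m : ℕ} {J : Submodule k (Equiv.Perm (Fin n) →₀ k)} (h : Fin n ↪ Fin m)
    {c : Equiv.Perm (Fin n) →₀ k} (hcJ : c ∈ J) : hc h c ∈ InJ J m :=
  Submodule.subset_span ⟨h, c, hcJ, rfl⟩

lemma coef_mem {n m : ℕ} {J : Submodule k (Equiv.Perm (Fin n) →₀ k)} (hJ : IsLeft J)
    {x : (Fin n ↪ Fin m) →₀ k} (hx : x ∈ InJ J m) (a : Fin n ↪ Fin m) : coef a x ∈ J := by
  unfold InJ at hx
  induction hx using Submodule.span_induction with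
  | mem x hx =>
    obtain ⟨h, c, hcJ, rfl⟩ := hx
    by_cases hr : ∃ ρ : Equiv.Perm (Fin n), a = ρ.toEmbedding.trans h
    · obtain ⟨ρ, rfl⟩ := hr
      have h1 : coef (ρ.toEmbedding.trans h) (hc h c) = ltr ρ⁻¹ c := by
        ext τ
        rw [coef_apply]
        have h2 : τ.toEmbedding.trans (ρ.toEmbedding.trans h) =
            (fun σ : Equiv.Perm (Fin n) => σ.toEmbedding.trans h) (ρ * τ) := rfl
        have h3 : τ = (fun τ => ρ⁻¹ * τ) (ρ * τ) := by simp
        rw [h2]
        conv_rhs => rw [h3]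
        change Finsupp.mapDomain (fun σ : Equiv.Perm (Fin n) => σ.toEmbedding.trans h) c _ =
          Finsupp.mapDomain (fun τ => ρ⁻¹ * τ) c _
        rw [Finsupp.mapDomain_apply (trans_perm_injective h),
          Finsupp.mapDomain_apply (mul_right_injective ρ⁻¹)]
      rw [h1]
      exact hJ _ _ hcJ
    · have h1 : coef a (hc h c) = 0 := by
        ext τ
        rw [coef_apply]
        change Finsupp.mapDomain (fun σ : Equiv.Perm (Fin n) => σ.toEmbedding.trans h) c _ = 0
        apply Finsupp.mapDomain_of_notMem_range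
        rintro ⟨σ, hσ⟩
        apply hr
        refine ⟨σ * τ⁻¹, ?_⟩
        ext1 i
        have h2 := DFunLike.congr_fun hσ (τ⁻¹ i)
        change h (σ (τ⁻¹ i)) = a (τ (τ⁻¹ i)) at h2
        rw [← Equiv.Perm.mul_apply τ, mul_inv_cancel, Equiv.Perm.one_apply] at h2
        exact h2.symm
      rw [h1]
      exact J.zero_mem
  | zero => rw [map_zero]; exact J.zero_mem
  | add x y _ _ hx hy => rw [map_add]; exact J.add_mem hx hy
  | smul r x _ hx => rw [map_smul]; exact J.smul_mem r hx

lemma post_mem {n m l : ℕ} {J : Submodule k (Equiv.Perm (Fin n) →₀ k)} (f : Fin m ↪ Fin l)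
    {x : (Fin n ↪ Fin m) →₀ k} (hx : x ∈ InJ J m) : post f x ∈ InJ J l := by
  unfold InJ at hx
  induction hx using Submodule.span_induction with
  | mem x hx =>
    obtain ⟨h, c, hcJ, rfl⟩ := hx
    rw [post_hc]
    exact hc_mem _ hcJ
  | zero => rw [map_zero]; exact (InJ J l).zero_mem
  | add x y _ _ hx hy => rw [map_add]; exact (InJ J l).add_mem hx hy
  | smul r x _ hx => rw [map_smul]; exact (InJ J l).smul_mem r hx

lemma orbit_zero {n m : ℕ} (S : (Fin n ↪ Fin m) → Prop) [DecidablePred S]
    (hS : ∀ (h : Fin n ↪ Fin m) (σ : Equiv.Perm (Fin n)), S h → S (σ.toEmbedding.trans h))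
    (x : (Fin n ↪ Fin m) →₀ k) (y : I.obj ⟨n⟩) (h0 : ∀ a, S a → opr I (coef a x) y = 0) :
    ∑ h ∈ Finset.univ.filter S, x h • act I h y = 0 := by
  apply sum_orbits_zero S hS
  intro a ha
  have h1 := congrArg (act I a) (h0 a ha)
  rw [opr_sum, map_sum, map_zero] at h1
  rw [← h1]
  apply Finset.sum_congr rfl
  intro σ _
  rw [map_smul, act_trans]
  rfl

lemma xact_zero_of_coef {n m : ℕ} (x : (Fin n ↪ Fin m) →₀ k) (y : I.obj ⟨n⟩)
    (h0 : ∀ a, opr I (coef a x) y = 0) : xact I x y = 0 := by
  classical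
  have h1 := orbit_zero I (fun _ => True) (fun _ _ _ => trivial) x y (fun a _ => h0 a)
  rw [Finset.filter_true_of_mem (fun _ _ => trivial)] at h1
  rw [xact_sum]
  exact h1

/-- The submodule generated by an element, in a given degree. -/
noncomputable def cyc {a : ℕ} (z : I.obj ⟨a⟩) (m : ℕ) : Submodule k (I.obj ⟨m⟩) :=
  LinearMap.range ((xact I (a := a) (b := m)).flip z)

lemma xact_mem_cyc {a m : ℕ} (z : I.obj ⟨a⟩) (p : (Fin a ↪ Fin m) →₀ k) :
    xact I p z ∈ cyc I z m := ⟨p, rfl⟩

lemma act_mem_cyc {a m l : ℕ} {z : I.obj ⟨a⟩} (f : Fin m ↪ Fin l) {w : I.obj ⟨m⟩}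
    (hw : w ∈ cyc I z m) : act I f w ∈ cyc I z l := by
  obtain ⟨p, rfl⟩ := hw
  exact ⟨post f p, xact_post I f p z⟩

/-- Composition of linear combinations. -/
noncomputable def comp {a b c : ℕ} (v : (Fin a ↪ Fin b) →₀ k) :
    ((Fin b ↪ Fin c) →₀ k) →ₗ[k] ((Fin a ↪ Fin c) →₀ k) :=
  Finsupp.linearCombination k (fun f => post f v)

lemma xact_comp {a b c : ℕ} (v : (Fin a ↪ Fin b) →₀ k) (p : (Fin b ↪ Fin c) →₀ k)
    (y : I.obj ⟨a⟩) : xact I (comp v p) y = xact I p (xact I v y) := by
  induction p using Finsupp.induction_linear with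
  | zero => simp
  | add x x' hx hx' => simp only [map_add, LinearMap.add_apply, hx, hx']
  | single h r =>
    rw [xact_single, comp, Finsupp.linearCombination_single, map_smul, LinearMap.smul_apply,
      xact_post]

lemma comp_mem {n m l : ℕ} {J : Submodule k (Equiv.Perm (Fin n) →₀ k)}
    {v : (Fin n ↪ Fin m) →₀ k} (hv : v ∈ InJ J m) (p : (Fin m ↪ Fin l) →₀ k) :
    comp v p ∈ InJ J l := by
  induction p using Finsupp.induction_linear with
  | zero => rw [map_zero]; exact (InJ J l).zero_mem
  | add x x' hx hx' => rw [map_add]; exact (InJ J l).add_mem hx hx'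
  | single h r =>
    rw [comp, Finsupp.linearCombination_single]
    exact (InJ J l).smul_mem r (post_mem h hv)

/-- The element `v c`. -/
noncomputable def vv {n : ℕ} (c : Equiv.Perm (Fin n) →₀ k) : (Fin n ↪ Fin (n + n)) →₀ k :=
  ∑ T : Finset (Fin n), ((-1 : k) ^ T.card) • hc (hT T) c

lemma xact_vv {n : ℕ} (c : Equiv.Perm (Fin n) →₀ k) (y : I.obj ⟨n⟩) :
    xact I (vv c) y = nu I n (opr I c y) := by
  rw [vv, nu_apply, map_sum, LinearMap.sum_apply]
  apply Finset.sum_congr rfl
  intro T _
  rw [map_smul, LinearMap.smul_apply, xact_hc]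

lemma vv_mem {n : ℕ} {J : Submodule k (Equiv.Perm (Fin n) →₀ k)}
    {c : Equiv.Perm (Fin n) →₀ k} (hcJ : c ∈ J) : vv c ∈ InJ J (n + n) :=
  Submodule.sum_mem _ (fun _ _ => Submodule.smul_mem _ _ (hc_mem _ hcJ))

section Key

variable (htf : ∀ {a b : ℕ} (h : Fin a ↪ Fin b), Function.Injective (act I h))

include htf in
/-- If a combination kills `y₁` then its coefficient vectors lie in the smaller ideal. -/
lemma coef_mem_small {n m : ℕ} {J' J : Submodule k (Equiv.Perm (Fin n) →₀ k)}
    (hJ : IsLeft J) {c0 : Equiv.Perm (Fin n) →₀ k}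
    (hgen : ∀ c ∈ J, c ∉ J' → c0 ∈ J' ⊔ Submodule.span k (Set.range (fun σ => ltr σ c)))
    {y1 : I.obj ⟨n⟩} (hy1 : ∀ c ∈ J', opr I c y1 = 0) (hz1 : nu I n (opr I c0 y1) ≠ 0)
    {x : (Fin n ↪ Fin m) →₀ k} (hx : x ∈ InJ J m) (hxy : xact I x y1 = 0)
    (a : Fin n ↪ Fin m) : coef a x ∈ J' := by
  by_contra hcon
  have h1 := sum_betaT_xact I a x y1
  rw [hxy] at h1
  simp only [map_zero, smul_zero, Finset.sum_const_zero] at h1
  have h2 : nu I n (opr I (coef a x) y1) = 0 := by
    apply htf (pair a)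
    rw [← h1, map_zero]
  obtain ⟨j, hj, s, hs, hjs⟩ := Submodule.mem_sup.mp (hgen _ (coef_mem hJ hx a) hcon)
  have h3 : nu I n (opr I s y1) = 0 := by
    clear hjs
    induction hs using Submodule.span_induction with
    | mem s hs =>
      obtain ⟨σ, rfl⟩ := hs
      rw [opr_ltr, nu_act, h2, map_zero]
    | zero => simp
    | add x y _ _ hx hy => simp only [map_add, LinearMap.add_apply, hx, hy, add_zero]
    | smul r x _ hx => simp only [map_smul, LinearMap.smul_apply, hx, smul_zero]
  apply hz1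
  rw [← hjs, map_add, LinearMap.add_apply, map_add, hy1 j hj, map_zero, zero_add, h3]


lemma coef_post {n m l : ℕ} (f : Fin m ↪ Fin l) (a : Fin n ↪ Fin m) (x : (Fin n ↪ Fin m) →₀ k) :
    coef (a.trans f) (post f x) = coef a x := by
  ext σ
  rw [coef_apply, coef_apply]
  have h2 : σ.toEmbedding.trans (a.trans f) =
      (fun h : Fin n ↪ Fin m => h.trans f) (σ.toEmbedding.trans a) := rfl
  rw [h2]
  change Finsupp.mapDomain (fun h : Fin n ↪ Fin m => h.trans f) x _ = _
  rw [Finsupp.mapDomain_apply]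
  intro h h' hh
  ext1 i
  have h3 := DFunLike.congr_fun hh i
  exact f.injective h3

lemma coef_post_zero {n m l : ℕ} (f : Fin m ↪ Fin l) (a : Fin n ↪ Fin l)
    (x : (Fin n ↪ Fin m) →₀ k) (i : Fin n) (hi : ∀ j, f j ≠ a i) :
    coef a (post f x) = 0 := by
  ext σ
  rw [coef_apply]
  change Finsupp.mapDomain (fun h : Fin n ↪ Fin m => h.trans f) x _ = 0
  apply Finsupp.mapDomain_of_notMem_range
  rintro ⟨h, hh⟩
  have h3 := DFunLike.congr_fun hh (σ.symm i)
  apply hi (h (σ.symm i))
  change f (h (σ.symm i)) = a (σ (σ.symm i)) at h3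
  rw [h3, σ.apply_symm_apply]

/-- The inclusion of `[m]` in `[m+1]`, twisted at one point. -/
def twist {m : ℕ} (x0 : Fin m) : Fin m ↪ Fin (m + 1) where
  toFun x := if x = x0 then Fin.last m else Fin.castSucc x
  inj' := by
    intro x y hxy
    by_cases hx : x = x0 <;> by_cases hy : y = x0
    · rw [hx, hy]
    · exfalso
      simp only [if_pos hx, if_neg hy] at hxy
      exact (Fin.castSucc_lt_last y).ne' hxy
    · exfalso
      simp only [if_neg hx, if_pos hy] at hxy
      exact (Fin.castSucc_lt_last x).ne hxy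
    · simp only [if_neg hx, if_neg hy] at hxy
      exact Fin.castSucc_injective m hxy

lemma twist_ne {m : ℕ} (x0 : Fin m) (j : Fin m) : twist x0 j ≠ Fin.castSucc x0 := by
  by_cases hj : j = x0
  · have : twist x0 j = Fin.last m := if_pos hj
    rw [this]
    exact (Fin.castSucc_lt_last x0).ne'
  · have : twist x0 j = Fin.castSucc j := if_neg hj
    rw [this]
    intro h
    exact hj (Fin.castSucc_injective m h)

lemma trans_twist {m l : ℕ} (α : Fin l ↪ Fin m) (x0 : Fin m) (h : ∀ j, α j ≠ x0) :
    α.trans (twist x0) = α.trans Fin.castSuccEmb := by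
  ext1 j
  exact if_neg (h j)

include htf in
/-- The key finiteness statement. -/
lemma key {n : ℕ} {J' J : Submodule k (Equiv.Perm (Fin n) →₀ k)}
    (hJ : IsLeft J) {c0 : Equiv.Perm (Fin n) →₀ k} (hc0 : c0 ∈ J)
    (hgen : ∀ c ∈ J, c ∉ J' → c0 ∈ J' ⊔ Submodule.span k (Set.range (fun σ => ltr σ c)))
    (hun : ∀ {a b : ℕ} (z : I.obj ⟨a⟩) (z' : I.obj ⟨b⟩), z ≠ 0 → z' ≠ 0 →
      ∃ (m : ℕ) (p : (Fin a ↪ Fin m) →₀ k) (p' : (Fin b ↪ Fin m) →₀ k),
        xact I p z = xact I p' z' ∧ xact I p z ≠ 0)
    {y1 : I.obj ⟨n⟩} (hy1 : ∀ c ∈ J', opr I c y1 = 0) (hz1 : nu I n (opr I c0 y1) ≠ 0)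
    {y : I.obj ⟨n⟩} (hy : ∀ c ∈ J', opr I c y = 0) :
    nu I n (opr I c0 y) ∈ cyc I y1 (n + n) := by
  classical
  by_cases hz : nu I n (opr I c0 y) = 0
  · rw [hz]; exact Submodule.zero_mem _
  obtain ⟨m, p, p', hpp, hp0⟩ := hun _ _ hz hz1
  -- the coefficient
  have hx0 : xact I (comp (vv c0) p) y ≠ 0 := by
    rw [xact_comp, xact_vv]; exact hp0
  have hxJ : comp (vv c0) p ∈ InJ J m := comp_mem (vv_mem hc0) p
  have hex : ∃ a : Fin n ↪ Fin m, coef a (comp (vv c0) p) ∉ J' := by
    by_contra hcon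
    push Not at hcon
    exact hx0 (xact_zero_of_coef I _ y (fun a => hy _ (hcon a)))
  obtain ⟨a, ha⟩ := hex
  have h1 := sum_betaT_xact I a (comp (vv c0) p) y
  have h2 : act I (pair a) (nu I n (opr I (coef a (comp (vv c0) p)) y)) ∈
      cyc I (nu I n (opr I c0 y1)) (m + n) := by
    rw [← h1]
    apply Submodule.sum_mem
    intro T _
    apply Submodule.smul_mem
    apply act_mem_cyc
    rw [xact_comp, xact_vv, hpp]
    exact xact_mem_cyc I _ _
  have h3 : act I (pair a) (nu I n (opr I c0 y)) ∈ cyc I (nu I n (opr I c0 y1)) (m + n) := by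
    obtain ⟨j, hj, s, hs, hjs⟩ := Submodule.mem_sup.mp (hgen _ (coef_mem hJ hxJ a) ha)
    have h3' : opr I c0 y = opr I s y := by
      rw [← hjs, map_add, LinearMap.add_apply, hy j hj, zero_add]
    rw [h3']
    clear hjs h3'
    induction hs using Submodule.span_induction with
    | mem s hs =>
      obtain ⟨σ, rfl⟩ := hs
      change act I (pair a) (nu I n (opr I (ltr σ _) y)) ∈ _
      rw [opr_ltr, nu_act]
      rw [← act_trans]
      have h4 : (sig2 σ).toEmbedding.trans (pair a) =
          (pair a).trans ((sig2 σ).viaFintypeEmbedding (pair a)).toEmbedding := by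
        ext1 i
        exact (Equiv.Perm.viaFintypeEmbedding_apply_image (sig2 σ) (pair a) i).symm
      rw [h4, act_trans]
      exact act_mem_cyc I _ h2
    | zero => simp only [map_zero, LinearMap.zero_apply]; exact Submodule.zero_mem _
    | add x y _ _ hx hy =>
      simp only [map_add, LinearMap.add_apply]; exact Submodule.add_mem _ hx hy
    | smul r x _ hx =>
      simp only [map_smul, LinearMap.smul_apply]; exact Submodule.smul_mem _ _ hx
  obtain ⟨p2, hp2⟩ := h3
  change xact I p2 (nu I n (opr I c0 y1)) = _ at hp2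
  rw [← xact_vv, ← xact_comp] at hp2
  have hxJ2 : comp (vv c0) p2 ∈ InJ J (m + n) := comp_mem (vv_mem hc0) p2
  -- vanishing of the coefficient vectors outside of the range of `pair a`
  have h5 : ∀ a' : Fin n ↪ Fin (m + n), (∃ i, ∀ j, pair a j ≠ a' i) →
      coef a' (comp (vv c0) p2) ∈ J' := by
    rintro a' ⟨i, hi⟩
    have h6 : xact I (post Fin.castSuccEmb (comp (vv c0) p2) -
        post (twist (a' i)) (comp (vv c0) p2)) y1 = 0 := by
      rw [map_sub, LinearMap.sub_apply, xact_post, xact_post, hp2, ← act_trans, ← act_trans,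
        trans_twist _ _ hi, sub_self]
    have h7 := coef_mem_small I htf hJ hgen hy1 hz1
      (Submodule.sub_mem _ (post_mem Fin.castSuccEmb hxJ2) (post_mem (twist (a' i)) hxJ2)) h6
      (a'.trans Fin.castSuccEmb)
    rw [map_sub, coef_post, coef_post_zero (twist (a' i)) (a'.trans Fin.castSuccEmb) _ i
      (twist_ne (a' i)), sub_zero] at h7
    exact h7
  have h8 : act I (pair a) (xact I (vv c0) y) ∈
      (cyc I y1 (n + n)).map (act I (pair a)) := by
    rw [xact_vv, ← hp2, xact_sum,
      ← Finset.sum_filter_add_sum_filter_not Finset.univ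
        (fun h : Fin n ↪ Fin (m + n) => ∃ i, ∀ j, pair a j ≠ h i),
      orbit_zero I (fun h : Fin n ↪ Fin (m + n) => ∃ i, ∀ j, pair a j ≠ h i), zero_add]
    · apply Submodule.sum_mem
      intro h hh
      rw [Finset.mem_filter] at hh
      have hh2 := hh.2
      push Not at hh2
      choose g hg using hh2
      have hginj : Function.Injective g := by
        intro i j hij
        apply h.injective
        rw [← hg i, ← hg j, hij]
      have hh3 : h = (⟨g, hginj⟩ : Fin n ↪ Fin (n + n)).trans (pair a) := by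
        ext1 i
        exact (hg i).symm
      apply Submodule.smul_mem
      rw [hh3, act_trans]
      refine ⟨_, ?_, rfl⟩
      have h9 := xact_mem_cyc I y1 (Finsupp.single (⟨g, hginj⟩ : Fin n ↪ Fin (n + n)) (1 : k))
      rw [xact_single, one_smul] at h9
      exact h9
    · rintro h σ ⟨i, hi⟩
      refine ⟨σ.symm i, fun j => ?_⟩
      change pair a j ≠ h (σ (σ.symm i))
      rw [σ.apply_symm_apply]
      exact hi j
    · intro a' ha'
      exact hy1 _ (h5 a' ha')
  obtain ⟨w, hw, hw2⟩ := h8
  have h10 := htf (pair a) hw2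
  rw [← xact_vv, ← h10]
  exact hw

end Key


/-! ### The kernel of `ν` -/

lemma act_castAdd {n m : ℕ} (h : Fin n ↪ Fin m) :
    (hT (∅ : Finset (Fin n))).trans (pair h) = h.trans (Fin.castAddEmb n) := by
  ext1 i
  change pair h (hT ∅ i) = Fin.castAdd n (h i)
  rw [hT_notMem (Finset.notMem_empty i), pair_castAdd]

lemma pair_hT_congr {n m : ℕ} (h h' : Fin n ↪ Fin m) (T : Finset (Fin n)) (i : Fin n)
    (hi : i ∈ T) (hh : ∀ j, j ≠ i → h j = h' j) :
    (hT T).trans (pair h) = (hT T).trans (pair h') := by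
  ext1 j
  change pair h (hT T j) = pair h' (hT T j)
  by_cases hj : j ∈ T
  · rw [hT_mem hj, pair_natAdd, pair_natAdd]
  · rw [hT_notMem hj, pair_castAdd, pair_castAdd, hh j (fun hji => hj (hji ▸ hi))]

/-- Restriction of an injection by forgetting the point `i`. -/
def restr {n m : ℕ} (i : Fin (n + 1)) (h : Fin (n + 1) ↪ Fin m) : Fin n ↪ Fin m :=
  (Fin.succAboveEmb i).trans h

lemma restr_eq {n m : ℕ} {i : Fin (n + 1)} {h h' : Fin (n + 1) ↪ Fin m}
    (hh : restr i h = restr i h') (j : Fin (n + 1)) (hj : j ≠ i) : h j = h' j := by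
  obtain ⟨l, rfl⟩ := Fin.exists_succAbove_eq hj
  exact DFunLike.congr_fun hh l

section KerNu

variable (htf : ∀ {a b : ℕ} (h : Fin a ↪ Fin b), Function.Injective (act I h))

include htf in
lemma xact_eq_zero {n m : ℕ} (y : I.obj ⟨n + 1⟩) (hy : nu I (n + 1) y = 0)
    (w : (Fin (n + 1) ↪ Fin m) →₀ k)
    (hw : ∀ i : Fin (n + 1), Finsupp.mapDomain (restr i) w = 0) : xact I w y = 0 := by
  classical
  apply htf (Fin.castAddEmb (m := n + 1))
  rw [map_zero]
  have h1 : ∀ T : Finset (Fin (n + 1)), T ≠ ∅ →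
      ∑ h, w h • act I ((hT T).trans (pair h)) y = 0 := by
    intro T hT0
    obtain ⟨i, hi⟩ := Finset.nonempty_iff_ne_empty.mpr hT0
    have hf : Function.FactorsThrough
        (fun h : Fin (n + 1) ↪ Fin m => act I ((hT T).trans (pair h)) y) (restr i) := by
      intro h h' hh
      change act I ((hT T).trans (pair h)) y = act I ((hT T).trans (pair h')) y
      rw [pair_hT_congr h h' T i hi (restr_eq hh)]
    have h2 := congrArg (Finsupp.linearCombination k (Function.extend (restr i)
      (fun h : Fin (n + 1) ↪ Fin m => act I ((hT T).trans (pair h)) y) (fun _ => 0))) (hw i)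
    rw [Finsupp.linearCombination_mapDomain, map_zero] at h2
    have h3 : Function.extend (restr i)
      (fun h : Fin (n + 1) ↪ Fin m => act I ((hT T).trans (pair h)) y) (fun _ => 0) ∘ (restr i)
      = fun h : Fin (n + 1) ↪ Fin m => act I ((hT T).trans (pair h)) y := by
      ext1 h
      exact hf.extend_apply _ h
    rw [h3, Finsupp.linearCombination_apply,
      Finsupp.sum_fintype w (fun h r => r • act I ((hT T).trans (pair h)) y)
        (fun h => zero_smul k _)] at h2
    exact h2
  have h4 : ∀ h : Fin (n + 1) ↪ Fin m,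
      ∑ T : Finset (Fin (n + 1)), ((-1 : k) ^ T.card) • act I ((hT T).trans (pair h)) y = 0 := by
    intro h
    have h5 := congrArg (act I (pair h)) hy
    rw [nu_apply, map_sum, map_zero] at h5
    rw [← h5]
    apply Finset.sum_congr rfl
    intro T _
    rw [map_smul, act_trans]
  have h6 : ∑ T : Finset (Fin (n + 1)), ((-1 : k) ^ T.card) •
      ∑ h, w h • act I ((hT T).trans (pair h)) y = 0 := by
    simp_rw [Finset.smul_sum]
    rw [Finset.sum_comm]
    apply Finset.sum_eq_zero
    intro h _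
    simp_rw [smul_comm _ (w h), ← Finset.smul_sum]
    rw [h4 h, smul_zero]
  rw [Finset.sum_eq_single (∅ : Finset (Fin (n + 1)))] at h6
  · rw [Finset.card_empty, pow_zero, one_smul] at h6
    rw [xact_sum, map_sum, ← h6]
    apply Finset.sum_congr rfl
    intro h _
    rw [map_smul, act_castAdd, act_trans]
  · intro T _ hT0
    rw [h1 T hT0, smul_zero]
  · intro h
    exact absurd (Finset.mem_univ _) h

include htf in
lemma nu_zero_injective : Function.Injective (nu I 0) := by
  rw [← LinearMap.ker_eq_bot, LinearMap.ker_eq_bot']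
  intro y hy
  rw [nu_apply] at hy
  have h1 : (Finset.univ : Finset (Finset (Fin 0))) = {∅} := by
    rfl
  rw [h1, Finset.sum_singleton, Finset.card_empty, pow_zero, one_smul] at hy
  apply htf (hT (∅ : Finset (Fin 0)))
  rw [hy, map_zero]

end KerNu

lemma post_refl {a b : ℕ} : post (k := k) (a := a) (Function.Embedding.refl (Fin b)) =
    LinearMap.id := by
  apply Finsupp.lhom_ext
  intro h r
  rw [post_single]
  rfl

lemma post_trans {a b c d : ℕ} (f : Fin b ↪ Fin c) (g : Fin c ↪ Fin d) :
    post (k := k) (a := a) (f.trans g) = (post g).comp (post f) := by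
  apply Finsupp.lhom_ext
  intro h r
  rw [LinearMap.comp_apply, post_single, post_single, post_single]
  rfl

/-- The free module on a generator of degree `n`. -/
noncomputable def Mfun (k : Type u) [Field k] (n : ℕ) : FI ⥤ ModuleCat.{u} k where
  obj m := ModuleCat.of k ((Fin n ↪ Fin m.card) →₀ k)
  map {m l} f := ModuleCat.ofHom (post (show Fin m.card ↪ Fin l.card from f))
  map_id m := by
    have h := post_refl (k := k) (a := n) (b := m.card)
    exact congrArg ModuleCat.ofHom h
  map_comp {m l p} f g := by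
    have h := post_trans (k := k) (a := n) (show Fin m.card ↪ Fin l.card from f)
      (show Fin l.card ↪ Fin p.card from g)
    exact congrArg ModuleCat.ofHom h

/-- The sum of `n + 1` copies of the free module on a generator of degree `n`. -/
noncomputable def Pfun (k : Type u) [Field k] (n : ℕ) : FI ⥤ ModuleCat.{u} k where
  obj m := ModuleCat.of k (Fin (n + 1) → ((Fin n ↪ Fin m.card) →₀ k))
  map {m l} f := ModuleCat.ofHom
    ((post (show Fin m.card ↪ Fin l.card from f)).compLeft (Fin (n + 1)))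
  map_id m := by
    have h := post_refl (k := k) (a := n) (b := m.card)
    exact congrArg (fun f => ModuleCat.ofHom (LinearMap.compLeft f (Fin (n + 1)))) h
  map_comp {m l p} f g := by
    have h := post_trans (k := k) (a := n) (show Fin m.card ↪ Fin l.card from f)
      (show Fin l.card ↪ Fin p.card from g)
    exact congrArg (fun f => ModuleCat.ofHom (LinearMap.compLeft f (Fin (n + 1)))) h

/-- The morphism given by the restrictions. -/
noncomputable def phi (k : Type u) [Field k] (n : ℕ) : Mfun k (n + 1) ⟶ Pfun k n where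
  app m := ModuleCat.ofHom (LinearMap.pi (fun i => Finsupp.lmapDomain k k (restr i)))
  naturality {m l} f := by
    apply ModuleCat.hom_ext
    apply Finsupp.lhom_ext
    intro h r
    change (LinearMap.pi (fun i => Finsupp.lmapDomain k k (restr i)))
      (post (show Fin m.card ↪ Fin l.card from f) (Finsupp.single h r)) =
      (post (show Fin m.card ↪ Fin l.card from f)).compLeft (Fin (n + 1))
        ((LinearMap.pi (fun i => Finsupp.lmapDomain k k (restr i))) (Finsupp.single h r))
    ext1 i
    rw [post_single]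
    change Finsupp.mapDomain (restr i) (Finsupp.single _ r) =
      post (show Fin m.card ↪ Fin l.card from f) (Finsupp.mapDomain (restr i)
        (Finsupp.single h r))
    rw [Finsupp.mapDomain_single, Finsupp.mapDomain_single, post_single]
    rfl

/-- The morphism given by an element. -/
noncomputable def evalHom {n : ℕ} (y : I.obj ⟨n⟩) : Mfun k n ⟶ I where
  app m := ModuleCat.ofHom ((xact I (a := n) (b := m.card)).flip y)
  naturality {m l} f := by
    apply ModuleCat.hom_ext
    apply Finsupp.lhom_ext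
    intro h r
    exact xact_post I (show Fin m.card ↪ Fin l.card from f) (Finsupp.single h r) y

section KerNu2

variable (htf : ∀ {a b : ℕ} (h : Fin a ↪ Fin b), Function.Injective (act I h))

include htf in
lemma ker_nu_le [Injective I] (n : ℕ) : LinearMap.ker (nu I (n + 1)) ≤
    ⨆ i : Fin (n + 1), LinearMap.range (act I (Fin.succAboveEmb i)) := by
  intro y hy
  have hy0 : nu I (n + 1) y = 0 := hy
  have hzero : Limits.kernel.ι (phi k n) ≫ evalHom I y = 0 := by
    ext m w
    change xact I ((Limits.kernel.ι (phi k n)).app m w) y = 0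
    apply xact_eq_zero I htf y hy0
    intro i
    have h1 := congrArg (fun f => (f.app m) w) (Limits.kernel.condition (phi k n))
    exact congrFun h1 i
  have hex := ShortComplex.exact_kernel (phi k n)
  let g : Pfun k n ⟶ I := hex.descToInjective (evalHom I y) hzero
  have hg : phi k n ≫ g = evalHom I y := hex.comp_descToInjective (evalHom I y) hzero
  let g0 : (Fin (n + 1) → ((Fin n ↪ Fin n) →₀ k)) →ₗ[k] I.obj ⟨n⟩ := (g.app ⟨n⟩).hom
  let g1 : (Fin (n + 1) → ((Fin n ↪ Fin (n + 1)) →₀ k)) →ₗ[k] I.obj ⟨n + 1⟩ :=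
    (g.app ⟨n + 1⟩).hom
  have hy1 : y = g1 (fun i => Finsupp.single (Fin.succAboveEmb i) (1 : k)) := by
    have h1 := congrArg (fun f => (f.app ⟨n + 1⟩)
      (Finsupp.single (Function.Embedding.refl (Fin (n + 1))) (1 : k))) hg
    have h2 : xact I (Finsupp.single (Function.Embedding.refl (Fin (n + 1))) (1 : k)) y = y := by
      rw [xact_single, act_refl, one_smul]
    rw [← h2]
    refine h1.symm.trans ?_
    change g1 (fun i => Finsupp.mapDomain (restr i) (Finsupp.single _ (1 : k))) = _
    congr 1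
    ext1 i
    rw [Finsupp.mapDomain_single]
    rfl
  have hy2 : (fun i => Finsupp.single (Fin.succAboveEmb i) (1 : k) :
      Fin (n + 1) → ((Fin n ↪ Fin (n + 1)) →₀ k)) =
      ∑ i, Pi.single i (Finsupp.single (Fin.succAboveEmb i) (1 : k)) :=
    (Finset.univ_sum_single _).symm
  rw [hy1, hy2, map_sum]
  apply Submodule.sum_mem
  intro i _
  apply Submodule.mem_iSup_of_mem i
  refine ⟨g0 (Pi.single i (Finsupp.single (Function.Embedding.refl (Fin n)) (1 : k))), ?_⟩
  have h3 := g.naturality (show (⟨n⟩ : FI) ⟶ ⟨n + 1⟩ from Fin.succAboveEmb i)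
  have h4 := congrArg (fun f => f.hom
    (Pi.single i (Finsupp.single (Function.Embedding.refl (Fin n)) (1 : k)))) h3
  refine Eq.trans h4.symm ?_
  change g1 ((post (Fin.succAboveEmb i)).compLeft (Fin (n + 1)) (Pi.single i
    (Finsupp.single (Function.Embedding.refl (Fin n)) (1 : k)))) = _
  congr 1
  ext1 j
  change post (Fin.succAboveEmb i) (Pi.single (M := fun _ => (Fin n ↪ Fin n) →₀ k) i
    (Finsupp.single (Function.Embedding.refl (Fin n)) (1 : k)) j) = _
  by_cases hj : j = i
  · subst hj
    rw [Pi.single_eq_same, Pi.single_eq_same, post_single]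
    rfl
  · rw [Pi.single_eq_of_ne hj, Pi.single_eq_of_ne hj, map_zero]

include htf in
lemma ker_nu_finite [Injective I] (n : ℕ) (hfin : Module.Finite k (I.obj ⟨n⟩)) :
    Module.Finite k (LinearMap.ker (nu I (n + 1))) := by
  have h1 : Module.Finite k (⨆ i : Fin (n + 1),
      LinearMap.range (act I (Fin.succAboveEmb i)) : Submodule k (I.obj ⟨n + 1⟩)) :=
    inferInstance
  exact Submodule.finiteDimensional_of_le (ker_nu_le I htf n)

end KerNu2


/-! ### Finiteness -/

/-- The elements killed by a set of elements of the group algebra. -/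
def Ann {n : ℕ} (J : Submodule k (Equiv.Perm (Fin n) →₀ k)) : Submodule k (I.obj ⟨n⟩) where
  carrier := {y | ∀ c ∈ J, opr I c y = 0}
  add_mem' := by
    intro x y hx hy c hc
    rw [map_add, hx c hc, hy c hc, add_zero]
  zero_mem' := by
    intro c _
    rw [map_zero]
  smul_mem' := by
    intro r x hx c hc
    rw [map_smul, hx c hc, smul_zero]

lemma ltr_one {n : ℕ} (c : Equiv.Perm (Fin n) →₀ k) : ltr 1 c = c := by
  induction c using Finsupp.induction_linear with
  | zero => simp
  | add x x' hx hx' => rw [map_add, hx, hx']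
  | single τ r => rw [ltr_single, one_mul]

lemma ltr_ltr {n : ℕ} (σ τ : Equiv.Perm (Fin n)) (c : Equiv.Perm (Fin n) →₀ k) :
    ltr σ (ltr τ c) = ltr (σ * τ) c := by
  induction c using Finsupp.induction_linear with
  | zero => simp
  | add x x' hx hx' => rw [map_add, map_add, map_add, hx, hx']
  | single ρ r => rw [ltr_single, ltr_single, ltr_single, mul_assoc]

lemma isLeft_span {n : ℕ} (c : Equiv.Perm (Fin n) →₀ k) :
    IsLeft (Submodule.span k (Set.range (fun σ => ltr σ c))) := by
  intro τ x hx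
  induction hx using Submodule.span_induction with
  | mem s hs =>
    obtain ⟨σ, rfl⟩ := hs
    apply Submodule.subset_span
    exact ⟨τ * σ, (ltr_ltr τ σ c).symm⟩
  | zero => rw [map_zero]; exact Submodule.zero_mem _
  | add x y _ _ hx hy => rw [map_add]; exact Submodule.add_mem _ hx hy
  | smul r x _ hx => rw [map_smul]; exact Submodule.smul_mem _ _ hx

lemma isLeft_sup {n : ℕ} {J J' : Submodule k (Equiv.Perm (Fin n) →₀ k)} (hJ : IsLeft J)
    (hJ' : IsLeft J') : IsLeft (J ⊔ J') := by
  intro τ x hx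
  obtain ⟨a, ha, b, hb, rfl⟩ := Submodule.mem_sup.mp hx
  rw [map_add]
  exact Submodule.add_mem_sup (hJ τ a ha) (hJ' τ b hb)

section Finiteness

variable (htf : ∀ {a b : ℕ} (h : Fin a ↪ Fin b), Function.Injective (act I h))
  (hun : ∀ {a b : ℕ} (z : I.obj ⟨a⟩) (z' : I.obj ⟨b⟩), z ≠ 0 → z' ≠ 0 →
      ∃ (m : ℕ) (p : (Fin a ↪ Fin m) →₀ k) (p' : (Fin b ↪ Fin m) →₀ k),
        xact I p z = xact I p' z' ∧ xact I p z ≠ 0)

include htf hun in
lemma ann_fg {n : ℕ} (hker : Module.Finite k (LinearMap.ker (nu I n)))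
    (J' : Submodule k (Equiv.Perm (Fin n) →₀ k)) : IsLeft J' → (Ann I J').FG := by
  induction J' using WellFoundedGT.induction with
  | ind J' ih =>
  intro hJ'
  by_cases htop : J' = ⊤
  · have h1 : Ann I J' = ⊥ := by
      rw [eq_bot_iff]
      intro y hy
      have h2 := hy (Finsupp.single 1 1) (by rw [htop]; exact Submodule.mem_top)
      rw [opr_single, one_smul] at h2
      have h3 : act I (Equiv.toEmbedding (1 : Equiv.Perm (Fin n))) y = y := act_refl I y
      rw [h3] at h2
      exact h2
    rw [h1]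
    exact Submodule.fg_bot
  -- a minimal left ideal above `J'`
  obtain ⟨J, hJ, hJmin⟩ := WellFounded.has_min
    (wellFounded_lt (α := Submodule k (Equiv.Perm (Fin n) →₀ k)))
    {J | IsLeft J ∧ J' < J} ⟨⊤, fun _ _ _ => Submodule.mem_top, lt_top_iff_ne_top.mpr htop⟩
  obtain ⟨hJl, hJlt⟩ := hJ
  have hgen0 : ∀ c ∈ J, c ∉ J' → J ≤ J' ⊔ Submodule.span k (Set.range (fun σ => ltr σ c)) := by
    intro c hc hc'
    have h1 : J' ⊔ Submodule.span k (Set.range (fun σ => ltr σ c)) ≤ J := by
      apply sup_le hJlt.le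
      rw [Submodule.span_le]
      rintro _ ⟨σ, rfl⟩
      exact hJl σ c hc
    have h2 : c ∈ J' ⊔ Submodule.span k (Set.range (fun σ => ltr σ c)) := by
      apply Submodule.mem_sup_right
      apply Submodule.subset_span
      exact ⟨1, ltr_one c⟩
    have h3 : J' < J' ⊔ Submodule.span k (Set.range (fun σ => ltr σ c)) := by
      apply lt_of_le_of_ne le_sup_left
      intro h
      rw [← h] at h2
      exact hc' h2
    have h4 := hJmin _ ⟨isLeft_sup hJ' (isLeft_span c), h3⟩
    rcases h1.lt_or_eq with h5 | h5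
    · exact absurd h5 h4
    · exact h5.ge
  obtain ⟨c0, hc0, hc0'⟩ := SetLike.exists_of_lt hJlt
  have hgen : ∀ c ∈ J, c ∉ J' →
      c0 ∈ J' ⊔ Submodule.span k (Set.range (fun σ => ltr σ c)) :=
    fun c hc hc' => hgen0 c hc hc' hc0
  apply Submodule.fg_of_fg_map_of_fg_inf_ker (opr I c0)
  · apply Submodule.fg_of_fg_map_of_fg_inf_ker (nu I n)
    · by_cases hex : ∃ y1 ∈ Ann I J', nu I n (opr I c0 y1) ≠ 0
      · obtain ⟨y1, hy1, hz1⟩ := hex
        have h1 : Submodule.map (nu I n) (Submodule.map (opr I c0) (Ann I J')) ≤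
            cyc I y1 (n + n) := by
          rintro _ ⟨_, ⟨y, hy, rfl⟩, rfl⟩
          exact key I htf hJl hc0 hgen hun hy1 hz1 hy
        have h2 : Module.Finite k (cyc I y1 (n + n)) := by
          unfold cyc
          infer_instance
        have h3 := Submodule.finiteDimensional_of_le h1
        exact Module.Finite.iff_fg.mp h3
      · push Not at hex
        have h1 : Submodule.map (nu I n) (Submodule.map (opr I c0) (Ann I J')) = ⊥ := by
          rw [eq_bot_iff]
          rintro _ ⟨_, ⟨y, hy, rfl⟩, rfl⟩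
          exact hex y hy
        rw [h1]
        exact Submodule.fg_bot
    · have h3 := Submodule.finiteDimensional_of_le
        (inf_le_right : Submodule.map (opr I c0) (Ann I J') ⊓ LinearMap.ker (nu I n) ≤ _)
      exact Module.Finite.iff_fg.mp h3
  · have h1 : Ann I J' ⊓ LinearMap.ker (opr I c0) ≤ Ann I J := by
      rintro y ⟨hy1, hy2⟩ c hc
      have hy2' : opr I c0 y = 0 := hy2
      obtain ⟨j, hj, s, hs, rfl⟩ := Submodule.mem_sup.mp (hgen0 c0 hc0 hc0' hc)
      have hsy : opr I s y = 0 := by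
        clear hc
        induction hs using Submodule.span_induction with
        | mem s hs =>
          obtain ⟨σ, rfl⟩ := hs
          rw [opr_ltr, hy2', map_zero]
        | zero => simp
        | add x y _ _ hx hy => simp only [map_add, LinearMap.add_apply, hx, hy, add_zero]
        | smul r x _ hx => simp only [map_smul, LinearMap.smul_apply, hx, smul_zero]
      rw [map_add, LinearMap.add_apply, hy1 j hj, hsy, add_zero]
    have h2 : Module.Finite k (Ann I J) := Module.Finite.iff_fg.mpr (ih J hJlt hJl)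
    have h3 := Submodule.finiteDimensional_of_le h1
    exact Module.Finite.iff_fg.mp h3

include htf hun in
lemma finite_of_uniform [Injective I] (n : ℕ) : Module.Finite k (I.obj ⟨n⟩) := by
  have main : ∀ n : ℕ, Module.Finite k (LinearMap.ker (nu I n)) →
      Module.Finite k (I.obj ⟨n⟩) := by
    intro n hker
    have h1 := ann_fg I htf hun hker ⊥ (by
      intro σ c hc
      rw [Submodule.mem_bot] at hc ⊢
      rw [hc, map_zero])
    have h2 : Ann I (⊥ : Submodule k (Equiv.Perm (Fin n) →₀ k)) = ⊤ := by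
      rw [eq_top_iff]
      intro y _ c hc
      rw [Submodule.mem_bot] at hc
      rw [hc, map_zero, LinearMap.zero_apply]
    rw [h2] at h1
    exact Module.finite_def.mpr h1
  induction n with
  | zero =>
    apply main
    have h1 : LinearMap.ker (nu I 0) = ⊥ := LinearMap.ker_eq_bot.mpr (nu_zero_injective I htf)
    rw [h1]
    infer_instance
  | succ n ih => exact main _ (ker_nu_finite I htf n ih)

end Finiteness


/-! ### Uniformity of indecomposable injectives -/

/-- An idempotent endomorphism of an indecomposable module is trivial. -/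
lemma idem_trivial (hind : Indecomposable I) (h : I ⟶ I) (hh : h ≫ h = h) :
    h = 0 ∨ h = 𝟙 I := by
  have hh2 : (𝟙 I - h) ≫ (𝟙 I - h) = 𝟙 I - h := by
    rw [Preadditive.sub_comp, Preadditive.comp_sub, Preadditive.comp_sub, hh]
    simp
  obtain ⟨Y, i, e, hie, hei⟩ := IsIdempotentComplete.idempotents_split I h hh
  obtain ⟨Z, i', e', hie', hei'⟩ := IsIdempotentComplete.idempotents_split I (𝟙 I - h) hh2
  have h1 : i ≫ h = i := by
    rw [← hei, ← Category.assoc, hie, Category.id_comp]
  have h2 : h ≫ e = e := by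
    rw [← hei, Category.assoc, hie, Category.comp_id]
  have h3 : i' ≫ (𝟙 I - h) = i' := by
    rw [← hei', ← Category.assoc, hie', Category.id_comp]
  have h4 : (𝟙 I - h) ≫ e' = e' := by
    rw [← hei', Category.assoc, hie', Category.comp_id]
  have h5 : i ≫ e' = 0 := by
    rw [← h4, ← Category.assoc, Preadditive.comp_sub, Category.comp_id, h1, sub_self,
      Limits.zero_comp]
  have h6 : i' ≫ e = 0 := by
    rw [← h3, Category.assoc, Preadditive.sub_comp, Category.id_comp, h2, sub_self,
      Limits.comp_zero]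
  let b : Limits.BinaryBicone Y Z :=
    { pt := I
      fst := e
      snd := e'
      inl := i
      inr := i'
      inl_fst := hie
      inl_snd := h5
      inr_fst := h6
      inr_snd := hie' }
  have hb : b.IsBilimit := Limits.isBinaryBilimitOfTotal b (by
    change e ≫ i + e' ≫ i' = 𝟙 I
    rw [hei, hei']
    abel)
  rcases hind.2 Y Z (Limits.biprod.uniqueUpToIso Y Z hb) with hY | hZ
  · left
    rw [← hei, hY.eq_of_src i 0, Limits.comp_zero]
  · right
    have h7 : 𝟙 I - h = 0 := by
      rw [← hei', hZ.eq_of_src i' 0, Limits.comp_zero]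
    exact (sub_eq_zero.mp h7).symm

/-- Stability of a family of subspaces. -/
def Stable (E : ∀ n : ℕ, Submodule k (I.obj ⟨n⟩)) : Prop :=
  ∀ {a b : ℕ} (f : Fin a ↪ Fin b) (x : I.obj ⟨a⟩), x ∈ E a → act I f x ∈ E b

lemma exists_maximal (X Y : ∀ n : ℕ, Submodule k (I.obj ⟨n⟩)) (hY : Stable I Y)
    (hXY : ∀ n, ∀ x ∈ X n, x ∈ Y n → x = 0) :
    ∃ C : ∀ n : ℕ, Submodule k (I.obj ⟨n⟩), Stable I C ∧ Y ≤ C ∧
      (∀ n, ∀ x ∈ X n, x ∈ C n → x = 0) ∧
      ∀ D : ∀ n : ℕ, Submodule k (I.obj ⟨n⟩), Stable I D → C ≤ D →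
        (∀ n, ∀ x ∈ X n, x ∈ D n → x = 0) → D ≤ C := by
  obtain ⟨C, hYC, hC⟩ := zorn_le_nonempty₀
    {C : ∀ n : ℕ, Submodule k (I.obj ⟨n⟩) | Stable I C ∧ ∀ n, ∀ x ∈ X n, x ∈ C n → x = 0}
    (by
      intro c hc hchain y hy
      have hdir : ∀ n, Directed (· ≤ ·) (fun F : c => (F : ∀ n : ℕ, Submodule k (I.obj ⟨n⟩)) n) := by
        intro n F G
        rcases hchain.total F.2 G.2 with h | h
        · exact ⟨G, h n, le_rfl⟩
        · exact ⟨F, le_rfl, h n⟩
      have : Nonempty c := ⟨⟨y, hy⟩⟩
      refine ⟨fun n => ⨆ F : c, (F : ∀ n : ℕ, Submodule k (I.obj ⟨n⟩)) n, ⟨?_, ?_⟩, ?_⟩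
      · intro a b f x hx
        rw [Submodule.mem_iSup_of_directed _ (hdir a)] at hx
        obtain ⟨F, hF⟩ := hx
        rw [Submodule.mem_iSup_of_directed _ (hdir b)]
        exact ⟨F, (hc F.2).1 f x hF⟩
      · intro n x hxX hx
        rw [Submodule.mem_iSup_of_directed _ (hdir n)] at hx
        obtain ⟨F, hF⟩ := hx
        exact (hc F.2).2 n x hxX hF
      · intro F hF n
        exact le_iSup (fun F : c => (F : ∀ n : ℕ, Submodule k (I.obj ⟨n⟩)) n) ⟨F, hF⟩)
    Y ⟨hY, hXY⟩
  refine ⟨C, hC.1.1, hYC, hC.1.2, ?_⟩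
  intro D hD hCD hXD
  exact hC.2 ⟨hD, hXD⟩ hCD

/-- The direct sum of two stable families, as a functor. -/
noncomputable def prodFun (E C : ∀ n : ℕ, Submodule k (I.obj ⟨n⟩)) (hE : Stable I E)
    (hC : Stable I C) : FI ⥤ ModuleCat.{u} k where
  obj m := ModuleCat.of k (E m.card × C m.card)
  map {m l} f := ModuleCat.ofHom
    (((act I (show Fin m.card ↪ Fin l.card from f)).restrict (fun x hx => hE _ x hx)).prodMap
      ((act I (show Fin m.card ↪ Fin l.card from f)).restrict (fun x hx => hC _ x hx)))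
  map_id m := by
    apply ModuleCat.hom_ext
    apply LinearMap.ext
    rintro ⟨x, y⟩
    apply Prod.ext
    · apply Subtype.ext
      exact act_refl I x.1
    · apply Subtype.ext
      exact act_refl I y.1
  map_comp {m l p} f g := by
    apply ModuleCat.hom_ext
    apply LinearMap.ext
    rintro ⟨x, y⟩
    apply Prod.ext
    · apply Subtype.ext
      exact act_trans I _ _ x.1
    · apply Subtype.ext
      exact act_trans I _ _ y.1

/-- Addition. -/
noncomputable def addHom (E C : ∀ n : ℕ, Submodule k (I.obj ⟨n⟩)) (hE : Stable I E)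
    (hC : Stable I C) : prodFun I E C hE hC ⟶ I where
  app m := ModuleCat.ofHom ((E m.card).subtype.coprod (C m.card).subtype)
  naturality {m l} f := by
    apply ModuleCat.hom_ext
    apply LinearMap.ext
    rintro ⟨x, y⟩
    exact (map_add (act I (show Fin m.card ↪ Fin l.card from f)) x.1 y.1).symm

/-- First projection. -/
noncomputable def fstHom (E C : ∀ n : ℕ, Submodule k (I.obj ⟨n⟩)) (hE : Stable I E)
    (hC : Stable I C) : prodFun I E C hE hC ⟶ I where
  app m := ModuleCat.ofHom ((E m.card).subtype ∘ₗ LinearMap.fst k _ _)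
  naturality {m l} f := by
    apply ModuleCat.hom_ext
    apply LinearMap.ext
    rintro ⟨x, y⟩
    rfl

lemma exists_endo [Injective I] (E C : ∀ n : ℕ, Submodule k (I.obj ⟨n⟩)) (hE : Stable I E)
    (hC : Stable I C) (hEC : ∀ n, ∀ x ∈ E n, x ∈ C n → x = 0) :
    ∃ h : I ⟶ I, (∀ n, ∀ x ∈ E n, (h.app ⟨n⟩).hom x = x) ∧
      (∀ n, ∀ x ∈ C n, (h.app ⟨n⟩).hom x = 0) := by
  have hmono : ∀ m : FI, Mono ((addHom I E C hE hC).app m) := by
    intro m
    rw [ModuleCat.mono_iff_injective]
    rw [injective_iff_map_eq_zero]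
    rintro ⟨x, y⟩ hxy
    have h1 : (x : I.obj ⟨m.card⟩) + (y : I.obj ⟨m.card⟩) = 0 := hxy
    have h2 : (x : I.obj ⟨m.card⟩) = -(y : I.obj ⟨m.card⟩) := eq_neg_of_add_eq_zero_left h1
    have h3 : (x : I.obj ⟨m.card⟩) = 0 := by
      apply hEC m.card _ x.2
      rw [h2]
      exact (C m.card).neg_mem y.2
    have h4 : (y : I.obj ⟨m.card⟩) = 0 := by
      rw [h3, zero_add] at h1
      exact h1
    apply Prod.ext
    · exact Subtype.ext h3
    · exact Subtype.ext h4
  have : Mono (addHom I E C hE hC) := NatTrans.mono_of_mono_app _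
  let h : I ⟶ I := Injective.factorThru (fstHom I E C hE hC) (addHom I E C hE hC)
  have hh : addHom I E C hE hC ≫ h = fstHom I E C hE hC :=
    Injective.comp_factorThru _ _
  refine ⟨h, ?_, ?_⟩
  · intro n x hx
    have h1 := congrArg (fun f => (f.app ⟨n⟩).hom ((⟨x, hx⟩, 0) : E n × C n)) hh
    have h2 : (h.app ⟨n⟩).hom (x + 0) = x := h1
    rw [add_zero] at h2
    exact h2
  · intro n x hx
    have h1 := congrArg (fun f => (f.app ⟨n⟩).hom ((0, ⟨x, hx⟩) : E n × C n)) hh
    have h2 : (h.app ⟨n⟩).hom (0 + x) = 0 := h1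
    rw [zero_add] at h2
    exact h2

lemma endo_act (h : I ⟶ I) {a b : ℕ} (f : Fin a ↪ Fin b) (x : I.obj ⟨a⟩) :
    (h.app ⟨b⟩).hom (act I f x) = act I f ((h.app ⟨a⟩).hom x) := by
  have h1 := h.naturality (show (⟨a⟩ : FI) ⟶ ⟨b⟩ from f)
  exact congrArg (fun g => g.hom x) h1

/-- In an indecomposable injective module two nonzero submodules meet. -/
lemma meet [Injective I] (hind : Indecomposable I)
    (X Y : ∀ n : ℕ, Submodule k (I.obj ⟨n⟩)) (hX : Stable I X) (hY : Stable I Y)
    (hXY : ∀ n, ∀ x ∈ X n, x ∈ Y n → x = 0) :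
    (∀ n, X n = ⊥) ∨ (∀ n, Y n = ⊥) := by
  obtain ⟨C, hC, hYC, hXC, hCmax⟩ := exists_maximal I X Y hY hXY
  obtain ⟨E, hE, hXE, hCE, hEmax⟩ := exists_maximal I C X hX (fun n x hx hx' => hXC n x hx' hx)
  obtain ⟨h, hhE, hhC⟩ := exists_endo I E C hE hC (fun n x hx hx' => hCE n x hx' hx)
  -- the preimage of `C`
  have h1 : ∀ n, ∀ x : I.obj ⟨n⟩, (h.app ⟨n⟩).hom x ∈ C n → x ∈ C n := by
    have h2 := hCmax (fun n => (C n).comap (h.app ⟨n⟩).hom)
      (by
        intro a b f x hx
        change (h.app ⟨b⟩).hom (act I f x) ∈ C b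
        rw [endo_act]
        exact hC f _ hx)
      (by
        intro n x hx
        change (h.app ⟨n⟩).hom x ∈ C n
        rw [hhC n x hx]
        exact Submodule.zero_mem _)
      (by
        intro n x hx hx'
        have hx2 : (h.app ⟨n⟩).hom x ∈ C n := hx'
        rw [hhE n x (hXE n hx)] at hx2
        exact hXC n x hx hx2)
    intro n x hx
    exact h2 n hx
  -- the range
  have h3 : ∀ n, ∀ x : I.obj ⟨n⟩, (h.app ⟨n⟩).hom x ∈ E n := by
    have h4 := hEmax (fun n => LinearMap.range (h.app ⟨n⟩).hom)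
      (by
        rintro a b f _ ⟨x, rfl⟩
        exact ⟨act I f x, endo_act I h f x⟩)
      (by
        intro n x hx
        exact ⟨x, hhE n x hx⟩)
      (by
        rintro n _ hx ⟨x, rfl⟩
        exact hhC n x (h1 n x hx))
    intro n x
    exact h4 n ⟨x, rfl⟩
  have h5 : h ≫ h = h := by
    ext m x
    exact hhE m.card _ (h3 m.card x)
  rcases idem_trivial I hind h h5 with h6 | h6
  · left
    intro n
    rw [eq_bot_iff]
    intro x hx
    have h7 := hhE n x (hXE n hx)
    rw [h6] at h7
    exact h7.symm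
  · right
    intro n
    rw [eq_bot_iff]
    intro x hx
    have h7 := hhC n x (hYC n hx)
    rw [h6] at h7
    exact h7

lemma uniform [Injective I] (hind : Indecomposable I) {a b : ℕ} (z : I.obj ⟨a⟩)
    (z' : I.obj ⟨b⟩) (hz : z ≠ 0) (hz' : z' ≠ 0) :
    ∃ (m : ℕ) (p : (Fin a ↪ Fin m) →₀ k) (p' : (Fin b ↪ Fin m) →₀ k),
      xact I p z = xact I p' z' ∧ xact I p z ≠ 0 := by
  by_contra hcon
  push Not at hcon
  have hself : ∀ {c : ℕ} (w : I.obj ⟨c⟩), w ∈ cyc I w c := by
    intro c w
    have h1 := xact_mem_cyc I w (Finsupp.single (Function.Embedding.refl (Fin c)) (1 : k))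
    rw [xact_single, act_refl, one_smul] at h1
    exact h1
  rcases meet I hind (cyc I z) (cyc I z') (fun f x hx => act_mem_cyc I f hx)
    (fun f x hx => act_mem_cyc I f hx) (by
      rintro n x ⟨p, hp⟩ ⟨p', hp'⟩
      rw [← hp]
      exact hcon n p p' (hp.trans hp'.symm)) with h | h
  · have h1 := hself z
    rw [h a] at h1
    exact hz h1
  · have h1 := hself z'
    rw [h b] at h1
    exact hz' h1

/-- Every torsion-free indecomposable injective FI-module over a field is degree-wise finite. -/
theorem result (k : Type u) [Field k] (I : FI ⥤ ModuleCat.{u} k) (hinj : Injective I)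
    (hind : Indecomposable I)
    (htf : ∀ (a b : FI) (f : a ⟶ b), Function.Injective (I.map f)) :
    ∀ a : FI, Module.Finite k (I.obj a) := by
  intro a
  exact finite_of_uniform I (fun {a b} h => htf ⟨a⟩ ⟨b⟩ h)
    (fun z z' hz hz' => uniform I hind z z' hz hz') a.card

end Pool.Agent.Results.MP_b23a2c_al.DegreewiseFinite
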